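import Pool.Agent.H21.KneserCert

set_option autoImplicit false

namespace Pool.Agent.Results.MP_9946dc_co.Class0
open Pool.Agent.H21 KneserDefs KneserCert

def tab (L : List (List ℕ)) (i j : ℕ) : ℕ := (L.getD i []).getD j 0

theorem c12_5 : pebblingNumber (kneser 12 5) = Nat.choose 12 5 :=
  class0 2 5 1300 (by norm_num) (tab [[0, 0, 0, 0, 1638, 10920], [0, 0, 1050, 1400, 1400, 0], [0, 0, 910, 2730, 0, 0], [5460, 819, 1365, 0, 0, 0], [2800, 700, 0, 0, 0, 0], [0, 0, 0, 0, 0, 0]]) (by decide +kernel)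

theorem c13_5 : pebblingNumber (kneser 13 5) = Nat.choose 13 5 :=
  class0 3 5 7425 (by norm_num) (tab [[0, 0, 3648, 6624, 9800, 33600], [0, 3570, 7140, 8400, 7140, 0], [16800, 4200, 8400, 8400, 0, 0], [16800, 4900, 8400, 0, 0, 0], [14280, 3312, 0, 0, 0, 0], [0, 0, 0, 0, 0, 0]]) (by decide +kernel)

theorem c14_5 : pebblingNumber (kneser 14 5) = Nat.choose 14 5 :=
  class0 4 5 635 (by norm_num) (tab [[0, 15498, 0, 0, 0, 2520], [1260, 630, 630, 630, 630, 0], [1260, 630, 630, 420, 0, 0], [1260, 630, 270, 0, 0, 0], [1260, 135, 0, 0, 0, 0], [0, 0, 0, 0, 0, 0]]) (by decide +kernel)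

theorem c15_5 : pebblingNumber (kneser 15 5) = Nat.choose 15 5 :=
  class0 5 5 2 (by norm_num) (tab [[336, 0, 0, 0, 0, 168], [84, 0, 0, 0, 0, 0], [24, 0, 0, 0, 0, 0], [9, 0, 0, 0, 0, 0], [4, 0, 0, 0, 0, 0], [0, 0, 0, 0, 0, 0]]) (by decide +kernel)

theorem c16_5 : pebblingNumber (kneser 16 5) = Nat.choose 16 5 :=
  class0 6 5 12 (by norm_num) (tab [[836, 0, 0, 0, 0, 528], [264, 0, 0, 0, 0, 0], [99, 0, 0, 0, 0, 0], [44, 0, 0, 0, 0, 0], [22, 0, 0, 0, 0, 0], [0, 0, 0, 0, 0, 0]]) (by decide +kernel)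

theorem c15_6 : pebblingNumber (kneser 15 6) = Nat.choose 15 6 :=
  class0 3 6 19260 (by norm_num) (tab [[0, 0, 0, 74472, 0, 0, 128400], [0, 0, 0, 28890, 11376, 30240, 0], [0, 0, 428, 32100, 32100, 0, 0], [60480, 15120, 15120, 30240, 0, 0, 0], [64200, 14445, 16050, 0, 0, 0, 0], [57780, 0, 0, 0, 0, 0, 0], [0, 0, 0, 0, 0, 0, 0]]) (by decide +kernel)

theorem c16_6 : pebblingNumber (kneser 16 6) = Nat.choose 16 6 :=
  class0 4 6 3120 (by norm_num) (tab [[0, 0, 30576, 0, 2024, 0, 14400], [0, 1800, 3141, 3141, 3141, 3600, 0], [7200, 0, 3600, 3450, 3200, 0, 0], [7200, 1600, 3600, 3600, 0, 0, 0], [7200, 1800, 3600, 0, 0, 0, 0], [6282, 1012, 0, 0, 0, 0, 0], [0, 0, 0, 0, 0, 0, 0]]) (by decide +kernel)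

theorem c17_6 : pebblingNumber (kneser 17 6) = Nat.choose 17 6 :=
  class0 5 6 3132 (by norm_num) (tab [[0, 239052, 0, 0, 0, 0, 12672], [6336, 3168, 3036, 3168, 3168, 3168, 0], [6336, 3036, 3036, 3168, 3168, 0, 0], [6336, 3168, 3168, 1287, 0, 0, 0], [6072, 3168, 1100, 0, 0, 0, 0], [6336, 462, 0, 0, 0, 0, 0], [0, 0, 0, 0, 0, 0, 0]]) (by decide +kernel)

theorem c17_7 : pebblingNumber (kneser 17 7) = Nat.choose 17 7 :=
  class0 3 7 795690 (by norm_num) (tab [[0, 0, 0, 0, 1139172, 0, 2071340, 12113640], [0, 0, 0, 0, 97272, 2342830, 1326150, 0], [0, 0, 0, 0, 1441090, 2342830, 0, 0], [0, 1514205, 720545, 48636, 3028410, 0, 0, 0], [6056820, 663075, 1171415, 48636, 0, 0, 0, 0], [4685660, 1035670, 0, 0, 0, 0, 0, 0], [2652300, 0, 0, 0, 0, 0, 0, 0], [0, 0, 0, 0, 0, 0, 0, 0]]) (by decide +kernel)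

theorem c18_7 : pebblingNumber (kneser 18 7) = Nat.choose 18 7 :=
  class0 4 7 2390640 (by norm_num) (tab [[0, 0, 0, 0, 2633400, 3194400, 0, 17740800], [0, 0, 0, 2736657, 3287130, 0, 4435200, 0], [0, 0, 0, 1859088, 4435200, 4435200, 0, 0], [8870400, 0, 30800, 4435200, 4435200, 0, 0, 0], [8870400, 2217600, 1316700, 4435200, 0, 0, 0, 0], [8870400, 1597200, 1597200, 0, 0, 0, 0, 0], [6574260, 0, 0, 0, 0, 0, 0, 0], [0, 0, 0, 0, 0, 0, 0, 0]]) (by decide +kernel)

theorem c20_8 : pebblingNumber (kneser 20 8) = Nat.choose 20 8 :=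
  class0 4 8 1559040 (by norm_num) (tab [[0, 0, 0, 0, 0, 0, 4523200, 0, 11827200], [0, 0, 0, 0, 0, 2956800, 1943040, 2956800, 0], [0, 0, 0, 0, 2390322, 1597200, 2815890, 0, 0], [0, 0, 0, 718080, 2956800, 2956800, 0, 0, 0], [5913600, 0, 2261600, 798600, 2956800, 0, 0, 0, 0], [5913600, 1478400, 1478400, 1478400, 0, 0, 0, 0, 0], [5913600, 1407945, 798600, 0, 0, 0, 0, 0, 0], [153920, 2261600, 0, 0, 0, 0, 0, 0, 0], [0, 0, 0, 0, 0, 0, 0, 0, 0]]) (by decide +kernel)

theorem big (a t b : ℕ) (h : b ≤ a) (hb : 511 < b.choose t) : ¬ a.choose t ≤ 511 := by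
  have := Nat.choose_le_choose t h
  omega

/-- All Kneser graphs `K(m,t)` with `t ≥ 5`, `m ≥ (5t-1)/2` and degree at most 511 are Class 0. -/
theorem result : ∀ t m : ℕ, 5 ≤ t → (5 * (t : ℝ) - 1) / 2 ≤ m → (m - t).choose t ≤ 511 →
    pebblingNumber (kneser m t) = m.choose t := by
  intro t m ht hm hc
  have hm' : 5 * t ≤ 2 * m + 1 := by
    have : (5 * t : ℝ) ≤ 2 * m + 1 := by linarith
    exact_mod_cast this
  have h8 : t ≤ 8 := by
    by_contra h
    refine big (m - t) t (t + 4) (by omega) ?_ hc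
    rw [Nat.choose_symm_add]
    exact lt_of_lt_of_le (by decide) (Nat.choose_le_choose 4 (show 13 ≤ t + 4 by omega))
  interval_cases t
  · have : m ≤ 16 := by
      by_contra h
      exact big (m - 5) 5 12 (by omega) (by decide) hc
    have : 12 ≤ m := by omega
    interval_cases m
    exacts [c12_5, c13_5, c14_5, c15_5, c16_5]
  · have : m ≤ 17 := by
      by_contra h
      exact big (m - 6) 6 12 (by omega) (by decide) hc
    have : 15 ≤ m := by omega
    interval_cases m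
    exacts [c15_6, c16_6, c17_6]
  · have : m ≤ 18 := by
      by_contra h
      exact big (m - 7) 7 12 (by omega) (by decide) hc
    have : 17 ≤ m := by omega
    interval_cases m
    exacts [c17_7, c18_7]
  · have : m ≤ 20 := by
      by_contra h
      exact big (m - 8) 8 13 (by omega) (by decide) hc
    have : 20 ≤ m := by omega
    interval_cases m
    exact c20_8

end Pool.Agent.Results.MP_9946dc_co.Class0
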